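import Pool.Agent.Run7.h638.WR.Iface

/-!
# Pieces RR, RK, RF of the project WR (MP_5885b3_lc)
-/

set_option autoImplicit false

namespace Pool.Agent.Run7.h984.WR

open Pool.Agent.Run7.h638.WR

/-! ### Elementary facts -/

theorem lb01 : lb 0 ≠ lb 1 := by decide
theorem lb02 : lb 0 ≠ lb 2 := by decide
theorem lb12 : lb 1 ≠ lb 2 := by decide

theorem z5a (c : ZMod 5) : c + 1 ≠ c := by revert c; decide
theorem z5b (c : ZMod 5) : c + 2 ≠ c := by revert c; decide
theorem z5c (c : ZMod 5) : c + 2 ≠ c + 1 := by revert c; decide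
theorem z5d (c : ZMod 5) : c ≠ c + 2 + 1 := by revert c; decide
theorem z5e (a b : ZMod 5) : ∃ c : ZMod 5, c ≠ a ∧ c ≠ a + 1 ∧ c ≠ b := by revert a b; decide

theorem ne3 {n m : ℕ} {y y' : Yt n m} (h : y.2.2 ≠ y'.2.2) : y ≠ y' := fun e => h (by rw [e])

theorem ea_ne {n m : ℕ} (y : Yt n m) : y + ea n m ≠ y :=
  ne3 (z5a y.2.2)

theorem eb_ne {n m : ℕ} (y : Yt n m) : y ≠ y + eb n m :=
  (ne3 (z5a y.2.2)).symm

/-- the values of `kap` for kind 1, row 0 -/
def K0 {n m : ℕ} (y y' : Yt n m) : Win :=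
  if y' = y then lb 0 else if y' = y + ea n m then lb 1 else lb 2

/-- the values of `kap` for kind 1, row 4 -/
def K4 {n m : ℕ} (y y' : Yt n m) : Win :=
  if y' = y then lb 0 else if y = y' + eb n m then lb 1 else lb 2

/-- the values of `kap` for kind 2 -/
def K2 {n m : ℕ} (y y' : Yt n m) : Win := if y' = y then lb 0 else lb 2

theorem K0_0 {n m : ℕ} (y y' : Yt n m) : K0 y y' = lb 0 ↔ y' = y := by
  unfold K0
  split_ifs with h1 h2
  · simp [h1]
  · simp [h1, lb01.symm]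
  · simp [h1, lb02.symm]

theorem K0_1 {n m : ℕ} (y y' : Yt n m) : K0 y y' = lb 1 ↔ y' = y + ea n m := by
  unfold K0
  split_ifs with h1 h2
  · simp only [lb01, false_iff]
    rw [h1]
    exact (ea_ne y).symm
  · simp [h2]
  · simp [h2, lb12.symm]

theorem K0_2 {n m : ℕ} (y y' : Yt n m) : K0 y y' = lb 2 ↔ y' ≠ y ∧ y' ≠ y + ea n m := by
  unfold K0
  split_ifs with h1 h2
  · simp [h1, lb02]
  · simp [h2, lb12]
  · simp [h1, h2]

theorem K4_0 {n m : ℕ} (y y' : Yt n m) : K4 y y' = lb 0 ↔ y' = y := by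
  unfold K4
  split_ifs with h1 h2
  · simp [h1]
  · simp [h1, lb01.symm]
  · simp [h1, lb02.symm]

theorem K4_1 {n m : ℕ} (y y' : Yt n m) : K4 y y' = lb 1 ↔ y = y' + eb n m := by
  unfold K4
  split_ifs with h1 h2
  · simp only [lb01, false_iff]
    rw [h1]
    exact eb_ne y
  · simp [h2]
  · simp [h2, lb12.symm]

theorem K4_2 {n m : ℕ} (y y' : Yt n m) : K4 y y' = lb 2 ↔ y' ≠ y ∧ y ≠ y' + eb n m := by
  unfold K4
  split_ifs with h1 h2
  · simp [h1, lb02]
  · simp only [lb12, false_iff, not_and, not_not]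
    intro _
    exact h2
  · simp [h1, h2]

theorem K2_0 {n m : ℕ} (y y' : Yt n m) : K2 y y' = lb 0 ↔ y' = y := by
  unfold K2
  split_ifs with h1
  · simp [h1]
  · simp [h1, lb02.symm]

theorem K2_2 {n m : ℕ} (y y' : Yt n m) : K2 y y' = lb 2 ↔ y' ≠ y := by
  unfold K2
  split_ifs with h1
  · simp [h1, lb02]
  · simp [h1]

variable {n m : ℕ}

theorem kap_one0 (T : ZMod n → ZMod m → Tile) {i j : ℕ} (hk : kind i j = 1) (hi : i = 0)
    (y y' : Yt n m) : kap T i j y y' = K0 y y' := by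
  unfold kap K0
  rw [if_pos hk, if_pos hi]

theorem kap_one4 (T : ZMod n → ZMod m → Tile) {i j : ℕ} (hk : kind i j = 1) (hi : i ≠ 0)
    (y y' : Yt n m) : kap T i j y y' = K4 y y' := by
  unfold kap K4
  rw [if_pos hk, if_neg hi]

theorem kap_two (T : ZMod n → ZMod m → Tile) {i j : ℕ} (hk : kind i j = 2)
    (y y' : Yt n m) : kap T i j y y' = K2 y y' := by
  unfold kap K2
  rw [if_neg (by omega), if_pos hk]

theorem kap_three (T : ZMod n → ZMod m → Tile) {i j : ℕ} (hk : kind i j = 3)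
    (y y' : Yt n m) :
    kap T i j y y' = prj i j (winT T (y.1 + y'.1) (y.2.1 + y'.2.1)) := by
  unfold kap
  rw [if_neg (by omega), if_neg (by omega), if_pos hk]

theorem kap_zero (T : ZMod n → ZMod m → Tile) {i j : ℕ} (hk : kind i j = 0)
    (y y' : Yt n m) : kap T i j y y' = lb 0 := by
  unfold kap
  rw [if_neg (by omega), if_neg (by omega), if_neg (by omega)]

theorem blk_one (Q : List Win) {i j : ℕ} (hk : kind i j = 1) (u : Win) :
    u ∈ blk Q i j ↔ u = lb 0 ∨ u = lb 1 ∨ u = lb 2 := by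
  unfold blk
  rw [if_pos hk]
  simp

theorem blk_two (Q : List Win) {i j : ℕ} (hk : kind i j = 2) (u : Win) :
    u ∈ blk Q i j ↔ u = lb 0 ∨ u = lb 2 := by
  unfold blk
  rw [if_neg (by omega), if_pos hk]
  simp

theorem blk_three (Q : List Win) {i j : ℕ} (hk : kind i j = 3) (u : Win) :
    u ∈ blk Q i j ↔ ∃ w ∈ Q, prj i j w = u := by
  unfold blk
  rw [if_neg (by omega), if_neg (by omega), if_pos hk]
  simp

theorem blk_zero (Q : List Win) {i j : ℕ} (hk : kind i j = 0) (u : Win) :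
    u ∈ blk Q i j ↔ u = lb 0 := by
  unfold blk
  rw [if_neg (by omega), if_neg (by omega), if_neg (by omega)]
  simp

theorem kind_cases (i j : ℕ) : kind i j = 0 ∨ kind i j = 1 ∨ kind i j = 2 ∨ kind i j = 3 := by
  unfold kind
  split_ifs <;> simp

theorem t_RR : RR := by
  intro n m _ _ T Q hQ i j _ _
  rcases kind_cases i j with hk | hk | hk | hk
  · refine ⟨fun y y' => ?_, fun u hu y => ⟨y, ?_⟩, fun u hu y' => ⟨y', ?_⟩⟩
    · rw [kap_zero T hk, blk_zero Q hk]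
    · rw [kap_zero T hk, (blk_zero Q hk u).1 hu]
    · rw [kap_zero T hk, (blk_zero Q hk u).1 hu]
  · by_cases hi : i = 0
    · refine ⟨fun y y' => ?_, fun u hu y => ?_, fun u hu y' => ?_⟩
      · rw [kap_one0 T hk hi, blk_one Q hk]
        unfold K0
        split_ifs <;> simp
      · rcases (blk_one Q hk u).1 hu with rfl | rfl | rfl
        · exact ⟨y, by rw [kap_one0 T hk hi, K0_0]⟩
        · exact ⟨y + ea n m, by rw [kap_one0 T hk hi, K0_1]⟩
        · exact ⟨y + (0, 0, 2), by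
            rw [kap_one0 T hk hi, K0_2]
            exact ⟨ne3 (z5b y.2.2), ne3 (z5c y.2.2)⟩⟩
      · rcases (blk_one Q hk u).1 hu with rfl | rfl | rfl
        · exact ⟨y', by rw [kap_one0 T hk hi, K0_0]⟩
        · exact ⟨y' - ea n m, by rw [kap_one0 T hk hi, K0_1, sub_add_cancel]⟩
        · refine ⟨y' - (0, 0, 2), ?_⟩
          rw [kap_one0 T hk hi, K0_2]
          obtain ⟨y, rfl⟩ : ∃ y : Yt n m, y' = y + (0, 0, 2) := ⟨y' - (0, 0, 2), by
            rw [sub_add_cancel]⟩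
          rw [add_sub_cancel_right]
          exact ⟨ne3 (z5b y.2.2), ne3 (z5c y.2.2)⟩
    · refine ⟨fun y y' => ?_, fun u hu y => ?_, fun u hu y' => ?_⟩
      · rw [kap_one4 T hk hi, blk_one Q hk]
        unfold K4
        split_ifs <;> simp
      · rcases (blk_one Q hk u).1 hu with rfl | rfl | rfl
        · exact ⟨y, by rw [kap_one4 T hk hi, K4_0]⟩
        · exact ⟨y - eb n m, by rw [kap_one4 T hk hi, K4_1, sub_add_cancel]⟩
        · exact ⟨y + (0, 0, 2), by
            rw [kap_one4 T hk hi, K4_2]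
            exact ⟨ne3 (z5b y.2.2), ne3 (z5d y.2.2)⟩⟩
      · rcases (blk_one Q hk u).1 hu with rfl | rfl | rfl
        · exact ⟨y', by rw [kap_one4 T hk hi, K4_0]⟩
        · exact ⟨y' + eb n m, by rw [kap_one4 T hk hi, K4_1]⟩
        · refine ⟨y' - (0, 0, 2), ?_⟩
          rw [kap_one4 T hk hi, K4_2]
          obtain ⟨y, rfl⟩ : ∃ y : Yt n m, y' = y + (0, 0, 2) := ⟨y' - (0, 0, 2), by
            rw [sub_add_cancel]⟩
          rw [add_sub_cancel_right]
          exact ⟨ne3 (z5b y.2.2), ne3 (z5d y.2.2)⟩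
  · refine ⟨fun y y' => ?_, fun u hu y => ?_, fun u hu y' => ?_⟩
    · rw [kap_two T hk, blk_two Q hk]
      unfold K2
      split_ifs <;> simp
    · rcases (blk_two Q hk u).1 hu with rfl | rfl
      · exact ⟨y, by rw [kap_two T hk, K2_0]⟩
      · exact ⟨y + (0, 0, 2), by
          rw [kap_two T hk, K2_2]
          exact ne3 (z5b y.2.2)⟩
    · rcases (blk_two Q hk u).1 hu with rfl | rfl
      · exact ⟨y', by rw [kap_two T hk, K2_0]⟩
      · exact ⟨y' + (0, 0, 2), by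
          rw [kap_two T hk, K2_2]
          exact (ne3 (z5b y'.2.2)).symm⟩
  · refine ⟨fun y y' => ?_, fun u hu y => ?_, fun u hu y' => ?_⟩
    · rw [kap_three T hk, blk_three Q hk]
      exact ⟨_, (hQ _).2 ⟨_, _, rfl⟩, rfl⟩
    · obtain ⟨w, hw, rfl⟩ := (blk_three Q hk u).1 hu
      obtain ⟨a, b, rfl⟩ := (hQ w).1 hw
      refine ⟨(a - y.1, b - y.2.1, 0), ?_⟩
      rw [kap_three T hk]
      simp only [add_sub_cancel]
    · obtain ⟨w, hw, rfl⟩ := (blk_three Q hk u).1 hu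
      obtain ⟨a, b, rfl⟩ := (hQ w).1 hw
      refine ⟨(a - y'.1, b - y'.2.1, 0), ?_⟩
      rw [kap_three T hk]
      simp only [sub_add_cancel]

/-! ### RK -/

theorem classes : ∀ i < 6, ∀ j < 6, ∀ k < 6, kind i j ≠ 0 → kind j k ≠ 0 →
    (i = 0 ∧ j = 1 ∧ (k = 2 ∨ k = 3)) ∨
    (i = 0 ∧ (j = 1 ∨ j = 2 ∨ j = 3) ∧ (k = 4 ∨ k = 5)) ∨
    (i = 1 ∧ (j = 2 ∨ j = 3) ∧ (k = 4 ∨ k = 5)) ∨
    (i ≤ 3 ∧ j = 4 ∧ k = 5) := by
  intro i hi j hj k hk h1 h2
  unfold kind at h1 h2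
  split_ifs at h1 h2 <;> omega

theorem kinds : (∀ j, 1 ≤ j → j ≤ 3 → kind 0 j = 1) ∧
    (∀ j, (j = 2 ∨ j = 3) → kind 1 j = 2) ∧
    (∀ i j, i ≤ 3 → (j = 4 ∨ j = 5) → kind i j = 3) ∧ kind 4 5 = 1 := by
  refine ⟨?_, ?_, ?_, by decide⟩
  · intro j h1 h2
    unfold kind
    rw [if_pos (Or.inl ⟨rfl, h1, h2⟩)]
  · intro j hj
    unfold kind
    rw [if_neg (by omega), if_pos ⟨rfl, hj⟩]
  · intro i j hi hj
    unfold kind
    rw [if_neg (by omega), if_neg (by omega), if_pos ⟨hi, hj⟩]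

theorem rkA (T : ZMod n → ZMod m → Tile) (Q : List Win) {k : ℕ} (hk : k = 2 ∨ k = 3)
    (u : Win) (hu : u ∈ blk Q 0 1) (v : Win) (hv : v ∈ blk Q 1 k) (y y'' : Yt n m) :
    (∃ y', kap T 0 1 y y' = u ∧ kap T 1 k y' y'' = v) ↔ rule 0 1 k u v (kap T 0 k y y'') := by
  have k01 : kind 0 1 = 1 := by decide
  have k1k : kind 1 k = 2 := kinds.2.1 k hk
  have k0k : kind 0 k = 1 := kinds.1 k (by omega) (by omega)
  unfold rule
  rw [if_pos ⟨k01, k1k⟩]
  simp only [kap_one0 T k01 rfl, kap_one0 T k0k rfl, kap_two T k1k]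
  rcases (blk_two Q k1k v).1 hv with rfl | rfl
  · rw [if_pos rfl]
    constructor
    · rintro ⟨y', h1, h2⟩
      rw [K2_0] at h2
      rw [h2, h1]
    · intro h
      exact ⟨y'', h, (K2_0 _ _).2 rfl⟩
  · rw [if_neg lb02.symm]
    rcases (blk_one Q k01 u).1 hu with rfl | rfl | rfl
    · constructor
      · rintro ⟨y', h1, h2⟩
        rw [K0_0] at h1
        rw [K2_2, h1] at h2
        right
        rw [ne_eq, K0_0]
        exact h2
      · rintro (h | h)
        · exact absurd h lb02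
        · rw [ne_eq, K0_0] at h
          exact ⟨y, (K0_0 _ _).2 rfl, (K2_2 _ _).2 h⟩
    · constructor
      · rintro ⟨y', h1, h2⟩
        rw [K0_1] at h1
        rw [K2_2, h1] at h2
        right
        rw [ne_eq, K0_1]
        exact h2
      · rintro (h | h)
        · exact absurd h lb12
        · rw [ne_eq, K0_1] at h
          exact ⟨y + ea n m, (K0_1 _ _).2 rfl, (K2_2 _ _).2 h⟩
    · constructor
      · intro _
        exact Or.inl rfl
      · intro _
        obtain ⟨c, c1, c2, c3⟩ := z5e y.2.2 y''.2.2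
        refine ⟨(0, 0, c), (K0_2 _ _).2 ⟨ne3 c1, ne3 c2⟩, (K2_2 _ _).2 (ne3 (Ne.symm c3))⟩

theorem rkB (T : ZMod n → ZMod m → Tile) (Q : List Win)
    (hQ : ∀ w, w ∈ Q ↔ ∃ i j, winT T i j = w) {j k : ℕ} (hj : j = 1 ∨ j = 2 ∨ j = 3)
    (hk : k = 4 ∨ k = 5)
    (u : Win) (hu : u ∈ blk Q 0 j) (v : Win) (hv : v ∈ blk Q j k) (y y'' : Yt n m) :
    (∃ y', kap T 0 j y y' = u ∧ kap T j k y' y'' = v) ↔ rule 0 j k u v (kap T 0 k y y'') := by
  have k0j : kind 0 j = 1 := kinds.1 j (by omega) (by omega)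
  have kjk : kind j k = 3 := kinds.2.2.1 j k (by omega) hk
  have k0k : kind 0 k = 3 := kinds.2.2.1 0 k (by omega) hk
  have hj0 : j ≠ 0 := by omega
  unfold rule
  rw [if_neg (by omega), if_pos ⟨k0j, kjk⟩]
  simp only [kap_one0 T k0j rfl, kap_three T k0k, kap_three T kjk]
  obtain ⟨w, hw, rfl⟩ := (blk_three Q kjk v).1 hv
  obtain ⟨a, b, rfl⟩ := (hQ w).1 hw
  rcases (blk_one Q k0j u).1 hu with rfl | rfl | rfl
  · rw [if_pos rfl]
    constructor
    · rintro ⟨y', h1, h2⟩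
      rw [K0_0] at h1
      rw [h1] at h2
      rw [← h2]
      rfl
    · intro h
      refine ⟨y, (K0_0 _ _).2 rfl, ?_⟩
      refine Prod.ext h ?_
      simp only [prj, if_neg hj0]
      rw [if_neg (fun h => hj0 h.1), if_neg (fun h => hj0 h.1)]
  · rw [if_neg lb01.symm]
    constructor
    · rintro ⟨y', h1, h2⟩ _
      rw [K0_1] at h1
      rw [h1] at h2
      rw [← h2]
      have e1 : (y + ea n m).1 + y''.1 = (y.1 + y''.1) + 1 := by
        show y.1 + 1 + y''.1 = _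
        ring
      have e2 : (y + ea n m).2.1 + y''.2.1 = y.2.1 + y''.2.1 := by
        show y.2.1 + 0 + y''.2.1 = _
        ring
      rw [e1, e2]
      simp [prj, winT]
    · intro h
      have h := h rfl
      refine ⟨y + ea n m, (K0_1 _ _).2 rfl, ?_⟩
      have e1 : (y + ea n m).1 + y''.1 = (y.1 + y''.1) + 1 := by
        show y.1 + 1 + y''.1 = _
        ring
      have e2 : (y + ea n m).2.1 + y''.2.1 = y.2.1 + y''.2.1 := by
        show y.2.1 + 0 + y''.2.1 = _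
        ring
      rw [e1, e2]
      refine Prod.ext ?_ ?_
      · rw [← h]
        simp [prj, winT]
      · simp only [prj, if_neg hj0]
        rw [if_neg (fun h => hj0 h.1), if_neg (fun h => hj0 h.1)]
  · rw [if_neg lb02.symm]
    constructor
    · intro _ h
      exact absurd h.symm lb12
    · intro _
      refine ⟨(a - y''.1, b - y''.2.1, y.2.2 + 2), (K0_2 _ _).2 ⟨ne3 (z5b _), ne3 (z5c _)⟩, ?_⟩
      simp only [sub_add_cancel]

theorem rkC (T : ZMod n → ZMod m → Tile) (Q : List Win)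
    (hQ : ∀ w, w ∈ Q ↔ ∃ i j, winT T i j = w) {j k : ℕ} (hj : j = 2 ∨ j = 3)
    (hk : k = 4 ∨ k = 5)
    (u : Win) (hu : u ∈ blk Q 1 j) (v : Win) (hv : v ∈ blk Q j k) (y y'' : Yt n m) :
    (∃ y', kap T 1 j y y' = u ∧ kap T j k y' y'' = v) ↔ rule 1 j k u v (kap T 1 k y y'') := by
  have k1j : kind 1 j = 2 := kinds.2.1 j hj
  have kjk : kind j k = 3 := kinds.2.2.1 j k (by omega) hk
  have k1k : kind 1 k = 3 := kinds.2.2.1 1 k (by omega) hk
  have hj0 : j ≠ 0 := by omega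
  unfold rule
  rw [if_neg (by omega), if_neg (by omega), if_pos ⟨k1j, kjk⟩]
  simp only [kap_two T k1j, kap_three T k1k, kap_three T kjk]
  obtain ⟨w, hw, rfl⟩ := (blk_three Q kjk v).1 hv
  obtain ⟨a, b, rfl⟩ := (hQ w).1 hw
  have hprj : ∀ w', prj 1 k w' = prj j k w' := by
    intro w'
    simp [prj, hj0]
  rcases (blk_two Q k1j u).1 hu with rfl | rfl
  · constructor
    · rintro ⟨y', h1, h2⟩ _
      rw [K2_0] at h1
      rw [h1] at h2
      rw [hprj, h2]
    · intro h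
      refine ⟨y, (K2_0 _ _).2 rfl, ?_⟩
      rw [← hprj]
      exact h rfl
  · constructor
    · intro _ h
      exact absurd h.symm lb02
    · intro _
      refine ⟨(a - y''.1, b - y''.2.1, y.2.2 + 2), (K2_2 _ _).2 (ne3 (z5b _)), ?_⟩
      simp only [sub_add_cancel]

theorem rkD (T : ZMod n → ZMod m → Tile) (Q : List Win)
    (hQ : ∀ w, w ∈ Q ↔ ∃ i j, winT T i j = w) {i : ℕ} (hi : i ≤ 3)
    (u : Win) (hu : u ∈ blk Q i 4) (v : Win) (hv : v ∈ blk Q 4 5) (y y'' : Yt n m) :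
    (∃ y', kap T i 4 y y' = u ∧ kap T 4 5 y' y'' = v) ↔ rule i 4 5 u v (kap T i 5 y y'') := by
  have ki4 : kind i 4 = 3 := kinds.2.2.1 i 4 hi (by omega)
  have ki5 : kind i 5 = 3 := kinds.2.2.1 i 5 hi (by omega)
  have k45 : kind 4 5 = 1 := kinds.2.2.2
  unfold rule
  rw [if_neg (by omega), if_neg (by omega), if_neg (by omega), if_pos ⟨ki4, k45⟩]
  simp only [kap_three T ki4, kap_three T ki5, kap_one4 T k45 (by decide : (4 : ℕ) ≠ 0)]
  obtain ⟨w, hw, rfl⟩ := (blk_three Q ki4 u).1 hu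
  obtain ⟨a, b, rfl⟩ := (hQ w).1 hw
  have hp : ∀ w1 w2 : Win, prj i 4 w1 = prj i 4 w2 ↔
      (w1.1.1 = w2.1.1 ∧ (if i = 0 then w1.2.1 else z0) = (if i = 0 then w2.2.1 else z0)) := by
    intro w1 w2
    simp [prj]
  rcases (blk_one Q k45 v).1 hv with rfl | rfl | rfl
  · rw [if_pos rfl]
    constructor
    · rintro ⟨y', h1, h2⟩
      rw [K4_0] at h2
      rw [← h2, hp] at h1
      exact ⟨h1.1, h1.2⟩
    · rintro ⟨h1, h2⟩
      exact ⟨y'', (hp _ _).2 ⟨h1, h2⟩, (K4_0 _ _).2 rfl⟩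
  · rw [if_neg lb01.symm]
    have e1 : y.1 + (y'' + eb n m).1 = y.1 + y''.1 := by
      show y.1 + (y''.1 + 0) = _
      ring
    have e2 : y.2.1 + (y'' + eb n m).2.1 = (y.2.1 + y''.2.1) + 1 := by
      show y.2.1 + (y''.2.1 + 1) = _
      ring
    constructor
    · rintro ⟨y', h1, h2⟩ _
      rw [K4_1] at h2
      rw [h2, e1, e2, hp] at h1
      refine ⟨?_, ?_⟩
      · simpa [prj, winT] using h1.1
      · simpa [prj, winT] using h1.2
    · intro h
      obtain ⟨h1, h2⟩ := h rfl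
      refine ⟨y'' + eb n m, ?_, (K4_1 _ _).2 rfl⟩
      rw [e1, e2, hp]
      refine ⟨?_, ?_⟩
      · simpa [prj, winT] using h1
      · simpa [prj, winT] using h2
  · rw [if_neg lb02.symm]
    constructor
    · intro _ h
      exact absurd h.symm lb12
    · intro _
      refine ⟨(a - y.1, b - y.2.1, y''.2.2 + 2), ?_, (K4_2 _ _).2
        ⟨(ne3 (z5b _)).symm, ne3 (z5c _)⟩⟩
      simp only [add_sub_cancel]

theorem t_RK : RK := by
  intro n m _ _ T Q hQ i j k hi hj hk h1 h2 u hu v hv y y''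
  rcases classes i hi j hj k hk h1 h2 with ⟨rfl, rfl, h⟩ | ⟨rfl, h, h'⟩ | ⟨rfl, h, h'⟩ | ⟨h, rfl, rfl⟩
  · exact rkA T Q h u hu v hv y y''
  · exact rkB T Q hQ h h' u hu v hv y y''
  · exact rkC T Q hQ h h' u hu v hv y y''
  · exact rkD T Q hQ h u hu v hv y y''

/-! ### RF -/

theorem rule_zero {i j k : ℕ} (h : kind i j = 0 ∨ kind j k = 0) (u v w : Win) :
    rule i j k u v w := by
  unfold rule
  rcases h with h | h
  · rw [if_neg (by omega), if_neg (by omega), if_neg (by omega), if_neg (by omega)]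
    trivial
  · rw [if_neg (by omega), if_neg (by omega), if_neg (by omega), if_neg (by omega)]
    trivial

/-- the discrete order -/
def disc (X : Type) : PartialOrder X where
  le a b := a = b
  le_refl _ := rfl
  le_trans _ _ _ h h' := h.trans h'
  le_antisymm _ _ h _ := h

theorem t_RF : RR → RK → REP := by
  intro hRR hRK n m _ _ T Q hQ
  have hR := hRR n m inferInstance inferInstance T Q hQ
  have hK := hRK n m inferInstance inferInstance T Q hQ
  let c0 : (Fin 6 × Yt n m) → (Fin 6 × Yt n m) → At Q := fun x y =>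
    ⟨((x.1.val, y.1.val), kap T x.1.val y.1.val x.2 y.2),
      x.1.isLt, y.1.isLt, (hR x.1.val y.1.val x.1.isLt y.1.isLt).1 x.2 y.2⟩
  let h : Set (At Q) → (Fin 6 × Yt n m) → (Fin 6 × Yt n m) → Prop := fun S x y => c0 x y ∈ S
  refine ⟨Fin 6 × Yt n m, disc _, h, inferInstance, ?_⟩
  have hatom : ∀ c : At Q, ∀ y : Yt n m, ∃ y' : Yt n m,
      c0 (⟨c.1.1.1, c.2.1⟩, y) (⟨c.1.1.2, c.2.2.1⟩, y') = c := by
    intro c y
    obtain ⟨y', hy'⟩ := (hR c.1.1.1 c.1.1.2 c.2.1 c.2.2.1).2.1 c.1.2 c.2.2.2 y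
    refine ⟨y', ?_⟩
    apply Subtype.ext
    show ((c.1.1.1, c.1.1.2), kap T c.1.1.1 c.1.1.2 y y') = c.1
    rw [hy']
  refine @IsRep.mk _ _ _ _ (disc _) h ?_ ?_ ?_ ?_
  · intro S S' hSS
    ext c
    obtain ⟨y', hy'⟩ := hatom c 0
    have h1 := congrFun (congrFun hSS (⟨c.1.1.1, c.2.1⟩, 0)) (⟨c.1.1.2, c.2.2.1⟩, y')
    have h2 : (c0 (⟨c.1.1.1, c.2.1⟩, 0) (⟨c.1.1.2, c.2.2.1⟩, y') ∈ S) =
      (c0 (⟨c.1.1.1, c.2.1⟩, 0) (⟨c.1.1.2, c.2.2.1⟩, y') ∈ S') := h1
    rw [hy'] at h2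
    exact h2.to_iff
  · intro S x' x y y' h1 h2 h3
    have e1 : x' = x := h1
    have e2 : y = y' := h3
    rw [e1, ← e2]
    exact h2
  · intro S S'
    funext x z
    apply propext
    constructor
    · rintro ⟨a, ha, b, hb, h1, h2, h3⟩
      obtain ⟨⟨⟨i, j⟩, u⟩, hi, hj, hu⟩ := a
      obtain ⟨⟨⟨j', k⟩, v⟩, hj', hk, hv⟩ := b
      simp only at hi hj hu hj' hk hv h1 h2 h3
      subst h1
      have e1 : x.1.val = i := congrArg Prod.fst h2
      have e2 : z.1.val = k := congrArg Prod.snd h2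
      have h3' : rule i j k u v (kap T x.1.val z.1.val x.2 z.2) := h3
      rw [e1, e2] at h3'
      have hex : ∃ y', kap T i j x.2 y' = u ∧ kap T j k y' z.2 = v := by
        by_cases hk1 : kind i j = 0
        · obtain ⟨y', hy'⟩ := (hR j k hj hk).2.2 v hv z.2
          refine ⟨y', ?_, hy'⟩
          rw [kap_zero T hk1, (blk_zero Q hk1 u).1 hu]
        · by_cases hk2 : kind j k = 0
          · obtain ⟨y', hy'⟩ := (hR i j hi hj).2.1 u hu x.2
            refine ⟨y', hy', ?_⟩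
            rw [kap_zero T hk2, (blk_zero Q hk2 v).1 hv]
          · exact (hK i j k hi hj hk hk1 hk2 u hu v hv x.2 z.2).2 h3'
      obtain ⟨y', g1, g2⟩ := hex
      refine ⟨(⟨j, hj⟩, y'), ?_, ?_⟩
      · have : c0 x (⟨j, hj⟩, y') = ⟨((i, j), u), hi, hj, hu⟩ := by
          apply Subtype.ext
          show ((x.1.val, j), kap T x.1.val j x.2 y') = ((i, j), u)
          rw [e1, g1]
        show c0 x (⟨j, hj⟩, y') ∈ S
        rw [this]
        exact ha
      · have : c0 (⟨j, hj⟩, y') z = ⟨((j, k), v), hj', hk, hv⟩ := by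
          apply Subtype.ext
          show ((j, z.1.val), kap T j z.1.val y' z.2) = ((j, k), v)
          rw [e2, g2]
        show c0 (⟨j, hj⟩, y') z ∈ S'
        rw [this]
        exact hb
    · rintro ⟨y, h1, h2⟩
      refine ⟨c0 x y, h1, c0 y z, h2, rfl, rfl, ?_⟩
      show rule x.1.val y.1.val z.1.val (kap T x.1.val y.1.val x.2 y.2)
        (kap T y.1.val z.1.val y.2 z.2) (kap T x.1.val z.1.val x.2 z.2)
      by_cases hk1 : kind x.1.val y.1.val = 0
      · exact rule_zero (Or.inl hk1) _ _ _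
      · by_cases hk2 : kind y.1.val z.1.val = 0
        · exact rule_zero (Or.inr hk2) _ _ _
        · exact (hK x.1.val y.1.val z.1.val x.1.isLt y.1.isLt z.1.isLt hk1 hk2 _ (c0 x y).2.2.2 _
            (c0 y z).2.2.2 x.2 z.2).1 ⟨y.2, rfl, rfl⟩
  · intro S S'
    funext x y
    apply propext
    constructor
    · intro h1 x' y' hx hy h2
      have e1 : x' = x := hx
      have e2 : y = y' := hy
      subst e1 e2
      rcases h1 with h1 | h1
      · exact absurd h2 h1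
      · exact h1
    · intro h1
      by_cases h2 : c0 x y ∈ S
      · exact Or.inr (h1 x y rfl rfl h2)
      · exact Or.inl h2

end Pool.Agent.Run7.h984.WR
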